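import Pool.Agent.Helper8.SE.Sheet

set_option autoImplicit false

/-! Row ABEL of the sheet SE (MP_3a8adc_an). -/

open Set Filter Topology

namespace Pool.Agent.Helper55.SE

open Pool.Agent.Helper8.SE

theorem stABEL : ST_ABEL := by
  intro a l A q hA
  induction q with
  | zero =>
    intro ha _ hl
    have h0 := ha 0 le_rfl
    have h1 := hl 0 le_rfl
    rw [Finset.sum_range_one, div_self h0.ne', Real.log_one, add_zero, mul_one, ← add_div,
      sub_add_cancel]
    rwa [div_le_iff₀ h0]
  | succ q ih =>
    intro ha hd hl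
    have ih' := ih (fun n hn => ha n (by omega)) (fun n hn => hd n (by omega))
      (fun n hn => hl n (by omega))
    have h0 := ha 0 (by omega)
    have hq := ha q (by omega)
    have hq1 := ha (q + 1) le_rfl
    have hm := hd q (by omega)
    have hl1 := hl (q + 1) le_rfl
    rw [Finset.sum_range_succ]
    have e1 : Real.log (a 0 / a (q + 1)) =
        Real.log (a 0 / a q) - Real.log (a (q + 1) / a q) := by
      rw [Real.log_div h0.ne' hq1.ne', Real.log_div h0.ne' hq.ne', Real.log_div hq1.ne' hq.ne']
      ring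
    have e2 : Real.log (a (q + 1) / a q) ≤ a (q + 1) / a q - 1 :=
      Real.log_le_sub_one_of_pos (div_pos hq1 hq)
    have e3 : l (q + 1) * (1 / a (q + 1) - 1 / a q) ≤ A * (1 - a (q + 1) / a q) := by
      have h : 0 ≤ 1 / a (q + 1) - 1 / a q := sub_nonneg.2 (one_div_le_one_div_of_le hq1 hm)
      calc l (q + 1) * (1 / a (q + 1) - 1 / a q)
          ≤ (A * a (q + 1)) * (1 / a (q + 1) - 1 / a q) := mul_le_mul_of_nonneg_right hl1 h
        _ = A * (1 - a (q + 1) / a q) := by field_simp
    have e4 : A * (1 - a (q + 1) / a q) ≤ A * (-Real.log (a (q + 1) / a q)) :=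
      mul_le_mul_of_nonneg_left (by linarith) hA
    have e5 : (l (q + 1) - l (q + 1 + 1)) / a (q + 1) + l (q + 1 + 1) / a (q + 1) =
        l (q + 1) / a q + l (q + 1) * (1 / a (q + 1) - 1 / a q) := by
      field_simp
      ring
    calc ∑ n ∈ Finset.range (q + 1), (l n - l (n + 1)) / a n +
          (l (q + 1) - l (q + 1 + 1)) / a (q + 1) + l (q + 1 + 1) / a (q + 1)
        = (∑ n ∈ Finset.range (q + 1), (l n - l (n + 1)) / a n + l (q + 1) / a q) +
          l (q + 1) * (1 / a (q + 1) - 1 / a q) := by
          rw [add_assoc, e5]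
          ring
      _ ≤ A * (1 + Real.log (a 0 / a q)) + A * (-Real.log (a (q + 1) / a q)) := by
          linarith
      _ = A * (1 + Real.log (a 0 / a (q + 1))) := by
          rw [e1]
          ring

end Pool.Agent.Helper55.SE
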